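import Mathlib

namespace Pool.Agent.Results.MP_b47357_gt.NotWeaklyAlster

open Set Topology

universe u

/-- Every open cover has a countable subfamily with dense union. -/
def WeaklyLindelof (X : Type u) [TopologicalSpace X] : Prop :=
  ∀ 𝒰 : Set (Set X), (∀ U ∈ 𝒰, IsOpen U) → ⋃₀ 𝒰 = univ →
    ∃ 𝒱 : Set (Set X), 𝒱 ⊆ 𝒰 ∧ 𝒱.Countable ∧ Dense (⋃₀ 𝒱)

/-- The family `𝒰` belongs to `G_K(X)`. -/
def InGK {X : Type} [TopologicalSpace X] (𝒰 : Set (Set X)) : Prop :=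
  (∀ U ∈ 𝒰, IsGδ U) ∧ univ ∉ 𝒰 ∧ ∀ C : Set X, IsCompact C → ∃ U ∈ 𝒰, C ⊆ U

/-- Every family in `G_K(X)` has a countable subfamily with dense union. -/
def WeaklyAlster (X : Type) [TopologicalSpace X] : Prop :=
  ∀ 𝒰 : Set (Set X), InGK 𝒰 → ∃ 𝒱 : Set (Set X), 𝒱 ⊆ 𝒰 ∧ 𝒱.Countable ∧ Dense (⋃₀ 𝒱)

/-- Finite subsets of the Cantor set. -/
structure PR where
  s : Finset (ℕ → Bool)

/-- Basic neighbourhoods of the Pixley-Roy topology. -/
def N (n : ℕ) (F : PR) : Set PR :=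
  {G | F.s ⊆ G.s ∧ ∀ g ∈ G.s, ∃ f ∈ F.s, ∀ i < n, g i = f i}

theorem self_mem (n : ℕ) (F : PR) : F ∈ N n F :=
  ⟨Finset.Subset.refl _, fun g hg => ⟨g, hg, fun _ _ => rfl⟩⟩

theorem N_trans {n : ℕ} {F G : PR} (h : G ∈ N n F) : N n G ⊆ N n F := by
  intro H hH
  refine ⟨h.1.trans hH.1, fun g hg => ?_⟩
  obtain ⟨f, hf, h1⟩ := hH.2 g hg
  obtain ⟨e, he, h2⟩ := h.2 f hf
  exact ⟨e, he, fun i hi => (h1 i hi).trans (h2 i hi)⟩

theorem N_anti {n m : ℕ} (h : n ≤ m) (F : PR) : N m F ⊆ N n F := by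
  intro H hH
  refine ⟨hH.1, fun g hg => ?_⟩
  obtain ⟨f, hf, h1⟩ := hH.2 g hg
  exact ⟨f, hf, fun i hi => h1 i (by omega)⟩

instance : TopologicalSpace PR where
  IsOpen S := ∀ F ∈ S, ∃ n, N n F ⊆ S
  isOpen_univ := fun _ _ => ⟨0, subset_univ _⟩
  isOpen_inter := by
    intro S T hS hT F hF
    obtain ⟨n, hn⟩ := hS F hF.1
    obtain ⟨m, hm⟩ := hT F hF.2
    exact ⟨max n m, subset_inter ((N_anti (le_max_left _ _) F).trans hn)
      ((N_anti (le_max_right _ _) F).trans hm)⟩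
  isOpen_sUnion := by
    intro 𝒮 h F hF
    obtain ⟨S, hS, hFS⟩ := hF
    obtain ⟨n, hn⟩ := h S hS F hFS
    exact ⟨n, hn.trans (subset_sUnion_of_mem hS)⟩

theorem open_iff {S : Set PR} : IsOpen S ↔ ∀ F ∈ S, ∃ n, N n F ⊆ S := Iff.rfl

theorem N_open (n : ℕ) (F : PR) : IsOpen (N n F) :=
  open_iff.2 fun _ hG => ⟨n, N_trans hG⟩

/-- finitely many distinct points are separated by a finite initial segment -/
theorem sep (A : Finset (ℕ → Bool)) : ∃ n, ∀ a ∈ A, ∀ b ∈ A, (∀ i < n, a i = b i) → a = b := by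
  classical
  have h : ∀ p : (ℕ → Bool) × (ℕ → Bool), ∃ n, (∀ i < n, p.1 i = p.2 i) → p.1 = p.2 := by
    intro p
    by_cases hp : p.1 = p.2
    · exact ⟨0, fun _ => hp⟩
    · obtain ⟨i, hi⟩ := Function.ne_iff.1 hp
      exact ⟨i + 1, fun h => absurd (h i (by omega)) hi⟩
  choose k hk using h
  refine ⟨(A ×ˢ A).sup k, fun a ha b hb hab => hk (a, b) fun i hi => hab i ?_⟩
  have : k (a, b) ≤ (A ×ˢ A).sup k := Finset.le_sup (Finset.mem_product.2 ⟨ha, hb⟩)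
  omega

theorem N_closed (n : ℕ) (F : PR) : IsClosed (N n F) := by
  classical
  rw [← isOpen_compl_iff, open_iff]
  intro G hG
  obtain ⟨m, hm⟩ := sep (F.s ∪ G.s)
  refine ⟨m, fun H hH hHF => hG ⟨fun f hf => ?_, fun g hg => hHF.2 g (hH.1 hg)⟩⟩
  obtain ⟨g, hg, h⟩ := hH.2 f (hHF.1 hf)
  rw [hm f (Finset.mem_union_left _ hf) g (Finset.mem_union_right _ hg) h]
  exact hg

theorem tych : T35Space PR := by
  classical
  have h0 : T0Space PR := by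
    refine t0Space_iff_inseparable PR |>.2 fun F G h => ?_
    have h1 : G ∈ N 0 F := (h.mem_open_iff (N_open 0 F)).1 (self_mem 0 F)
    have h2 : F ∈ N 0 G := (h.mem_open_iff (N_open 0 G)).2 (self_mem 0 G)
    cases F; cases G
    congr
    exact Finset.Subset.antisymm h1.1 h2.1
  have h1 : CompletelyRegularSpace PR := by
    apply CompletelyRegularSpace.of_isTopologicalBasis_clopens
    refine TopologicalSpace.isTopologicalBasis_of_isOpen_of_nhds (fun _ s => s.isOpen) ?_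
    intro F S hF hS
    obtain ⟨n, hn⟩ := open_iff.1 hS F hF
    exact ⟨N n F, ⟨N_closed n F, N_open n F⟩, self_mem n F, hn⟩
  exact @T35Space.mk _ _ h0 h1

theorem uncount (S : Set (ℕ → Bool)) (hS : S.Countable) : ∃ r, r ∉ S := by
  by_contra h
  push Not at h
  have : (univ : Set (ℕ → Bool)).Countable := hS.mono fun r _ => h r
  have h2 : Countable (ℕ → Bool) := countable_univ_iff.1 this
  obtain ⟨f, hf⟩ := exists_surjective_nat (ℕ → Bool)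
  obtain ⟨k, hk⟩ := hf fun n => !(f n n)
  have := congrFun hk k
  cases h3 : f k k <;> simp [h3] at this

theorem not_dense (S : Set PR) (hS : S.Countable) : ¬ Dense S := by
  intro hd
  obtain ⟨r, hr⟩ := uncount (⋃ F ∈ S, (F.s : Set (ℕ → Bool)))
    (hS.biUnion fun F _ => F.s.countable_toSet)
  obtain ⟨G, hG, hGS⟩ := hd.inter_open_nonempty (N 0 ⟨{r}⟩) (N_open _ _) ⟨_, self_mem _ _⟩
  exact hr (mem_biUnion hGS (hG.1 (Finset.mem_singleton_self r)))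

theorem not_alster : ¬ WeaklyAlster PR := by
  intro h
  obtain ⟨𝒱, h1, h2, h3⟩ := h {U | IsGδ U ∧ U.Countable} (by
    refine ⟨fun U hU => hU.1, fun hu => not_dense _ hu.2 dense_univ, fun C hC => ?_⟩
    have key : ∀ n : ℕ, ∃ t : Finset PR, C ⊆ ⋃ F ∈ t, N n F := fun n =>
      hC.elim_finite_subcover (N n) (N_open n) fun F _ => mem_iUnion.2 ⟨F, self_mem n F⟩
    choose t ht using key
    refine ⟨⋂ n, ⋃ F ∈ t n, N n F, ⟨IsGδ.iInter_of_isOpen fun n =>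
      isOpen_biUnion fun F _ => N_open n F, ?_⟩, subset_iInter ht⟩
    refine (countable_iUnion fun n => (t n).countable_toSet).mono fun H hH => ?_
    obtain ⟨m, hm⟩ := sep H.s
    obtain ⟨F, hF, hHF⟩ := mem_iUnion₂.1 (mem_iInter.1 hH m)
    have : H = F := by
      cases H; cases F
      congr
      refine Finset.Subset.antisymm (fun g hg => ?_) hHF.1
      obtain ⟨f, hf, e⟩ := hHF.2 g hg
      rw [hm g hg f (hHF.1 hf) e]
      exact hf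
    exact mem_iUnion.2 ⟨m, this ▸ hF⟩)
  exact not_dense _ (h2.sUnion fun U hU => (h1 hU).2) h3

/-- the finite set enumerated by a tuple -/
noncomputable def rg {n : ℕ} (t : Fin n → ℕ → Bool) : PR := by
  classical exact ⟨Finset.univ.image t⟩

theorem mem_rg {n : ℕ} (t : Fin n → ℕ → Bool) (g : ℕ → Bool) : g ∈ (rg t).s ↔ ∃ j, t j = g := by
  simp [rg]

/-- cylinders in the space of tuples -/
def Cyl {n : ℕ} (m : ℕ) (t : Fin n → ℕ → Bool) : Set (Fin n → ℕ → Bool) :=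
  {s | ∀ j, ∀ i : Fin m, s j i = t j i}

theorem Cyl_clopen {n : ℕ} (m : ℕ) (t : Fin n → ℕ → Bool) : IsClopen (Cyl m t) := by
  have : Cyl m t = ⋂ j, ⋂ i : Fin m, (fun s : Fin n → ℕ → Bool => s j i) ⁻¹' {t j i} := by
    ext s; simp [Cyl]
  rw [this]
  refine isClopen_iInter_of_finite fun j => isClopen_iInter_of_finite fun i => ?_
  exact (isClopen_discrete _).preimage (by fun_prop)

theorem meet {n m k : ℕ} {s t : Fin n → ℕ → Bool} (h1 : t ∈ Cyl m s) (h2 : s ∈ Cyl k t) :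
    ∃ H, H ∈ N m (rg s) ∧ H ∈ N k (rg t) := by
  classical
  refine ⟨⟨(rg s).s ∪ (rg t).s⟩, ⟨Finset.subset_union_left, fun g hg => ?_⟩,
    ⟨Finset.subset_union_right, fun g hg => ?_⟩⟩
  · rcases Finset.mem_union.1 hg with h | h
    · exact ⟨g, h, fun _ _ => rfl⟩
    · obtain ⟨j, rfl⟩ := (mem_rg _ _).1 h
      exact ⟨s j, (mem_rg _ _).2 ⟨j, rfl⟩, fun i hi => h1 j ⟨i, hi⟩⟩
  · rcases Finset.mem_union.1 hg with h | h
    · obtain ⟨j, rfl⟩ := (mem_rg _ _).1 h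
      exact ⟨t j, (mem_rg _ _).2 ⟨j, rfl⟩, fun i hi => h2 j ⟨i, hi⟩⟩
    · exact ⟨g, h, fun _ _ => rfl⟩

theorem step {Y : Type u} [TopologicalSpace Y] (hY : WeaklyLindelof Y) (𝒰 : Set (Set (PR × Y)))
    (ho : ∀ U ∈ 𝒰, IsOpen U) (hc : ⋃₀ 𝒰 = univ) (n m : ℕ) (p : Fin n → ℕ → Bool) :
    ∃ 𝒱 : Set (Set (PR × Y)), 𝒱 ⊆ 𝒰 ∧ 𝒱.Countable ∧ ∀ s ∈ Cyl m p, ∀ V : Set Y, IsOpen V →
      V.Nonempty → ∃ H ∈ N m (rg s), ∃ y ∈ V, (H, y) ∈ ⋃₀ 𝒱 := by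
  classical
  have A : ∀ (y : Y) (t : Fin n → ℕ → Bool), ∃ (W : Set (PR × Y)) (k : ℕ) (V : Set Y), W ∈ 𝒰 ∧
      IsOpen V ∧ y ∈ V ∧ N k (rg t) ×ˢ V ⊆ W := by
    intro y t
    obtain ⟨W, hW, hy⟩ : (rg t, y) ∈ ⋃₀ 𝒰 := hc ▸ mem_univ _
    obtain ⟨a, b, ha, hb, h1, h2, h3⟩ := isOpen_prod_iff.1 (ho W hW) _ _ hy
    obtain ⟨k, hk⟩ := open_iff.1 ha _ h1
    exact ⟨W, k, b, hW, hb, h2, (prod_mono hk Subset.rfl).trans h3⟩
  choose W k V hW hV hy hsub using A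
  have B : ∀ y : Y, ∃ T : Finset (Fin n → ℕ → Bool), (∀ t ∈ T, t ∈ Cyl m p) ∧
      Cyl m p ⊆ ⋃ t ∈ T, Cyl (k y t) t := fun y =>
    (Cyl_clopen m p).isClosed.isCompact.elim_nhds_subcover (fun t => Cyl (k y t) t)
      fun t _ => (Cyl_clopen _ t).isOpen.mem_nhds fun _ _ => rfl
  choose T hT1 hT2 using B
  obtain ⟨𝒲, h1, h2, h3⟩ := hY (range fun y => ⋂ t ∈ T y, V y t) (by
      rintro _ ⟨y, rfl⟩
      exact isOpen_biInter_finset fun t _ => hV y t) (by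
      refine eq_univ_of_forall fun y => ⟨_, ⟨y, rfl⟩, ?_⟩
      exact mem_iInter₂.2 fun t _ => hy y t)
  have h1' : ∀ w : 𝒲, ∃ y, (⋂ t ∈ T y, V y t) = w.1 := fun w => h1 w.2
  choose c hcc using h1'
  have : Countable 𝒲 := h2.to_subtype
  refine ⟨⋃ w : 𝒲, W (c w) '' (T (c w) : Set _), ?_,
    countable_iUnion fun w => (T (c w)).countable_toSet.image _, fun s hs O hO hne => ?_⟩
  · rintro _ ⟨_, ⟨w, rfl⟩, t, _, rfl⟩
    exact hW _ _
  · obtain ⟨y, hyO, w, hw, hyw⟩ := h3.inter_open_nonempty O hO hne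
    obtain ⟨t, ht, hst⟩ := mem_iUnion₂.1 (hT2 (c ⟨w, hw⟩) hs)
    have hts : t ∈ Cyl m s := fun j i => (hT1 _ t ht j i).trans (hs j i).symm
    obtain ⟨H, hH1, hH2⟩ := meet hts hst
    have hyV : y ∈ V (c ⟨w, hw⟩) t := by
      have : y ∈ ⋂ t ∈ T (c ⟨w, hw⟩), V (c ⟨w, hw⟩) t := by rw [hcc]; exact hyw
      exact mem_iInter₂.1 this t ht
    exact ⟨H, hH1, y, hyO, W (c ⟨w, hw⟩) t, mem_iUnion.2 ⟨⟨w, hw⟩, t, ht, rfl⟩,
      hsub _ _ ⟨hH2, hyV⟩⟩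

theorem result : ∃ (X : Type) (_ : TopologicalSpace X), T35Space X ∧
    (∀ (Y : Type u) [TopologicalSpace Y], WeaklyLindelof Y → WeaklyLindelof (X × Y)) ∧
    ¬ WeaklyAlster X := by
  refine ⟨PR, inferInstance, tych, fun Y _ hY 𝒰 ho hc => ?_, not_alster⟩
  have A := fun q : Σ n : ℕ, Σ m : ℕ, Fin n → Fin m → Bool =>
    step hY 𝒰 ho hc q.1 q.2.1 fun j i => if h : i < q.2.1 then q.2.2 j ⟨i, h⟩ else false
  choose 𝒱 h1 h2 h3 using A
  refine ⟨⋃ q, 𝒱 q, iUnion_subset h1, countable_iUnion h2, ?_⟩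
  rw [dense_iff_inter_open]
  rintro O hO ⟨⟨F, y⟩, hF⟩
  obtain ⟨a, b, ha, hb, e1, e2, e3⟩ := isOpen_prod_iff.1 hO _ _ hF
  obtain ⟨m, hm⟩ := open_iff.1 ha _ e1
  let s : Fin F.s.card → ℕ → Bool := fun j => (F.s.equivFin.symm j).1
  have hs : rg s = F := by
    cases F with | mk A =>
    have : (rg s).s = A := by
      ext g
      rw [mem_rg]
      constructor
      · rintro ⟨j, rfl⟩
        exact (A.equivFin.symm j).2
      · intro hg
        exact ⟨A.equivFin ⟨g, hg⟩, by simp [s]⟩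
    cases h : rg s
    rw [h] at this
    congr
  obtain ⟨H, hH, z, hz, U, hU, hm2⟩ := h3 ⟨F.s.card, m, fun j i => s j i⟩ s
    (fun j i => by simp) b hb ⟨y, e2⟩
  rw [hs] at hH
  exact ⟨(H, z), e3 ⟨hm hH, hz⟩, U, mem_iUnion.2 ⟨_, hU⟩, hm2⟩

end Pool.Agent.Results.MP_b47357_gt.NotWeaklyAlster
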